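import Pool.Agent.W912.SE.Defs

/-!
# Shallow randomised decision trees are not right on many blocks
-/

set_option autoImplicit false

namespace Pool.Agent.W67.SE

open Pool.Agent.NPC Pool.Agent.H620R2.Gauge H568R2 Pool.Agent.H676 Pool.Agent.W912.SE
open Finset

/-- indicator of a proposition -/
noncomputable def ind (P : Prop) : ℝ := @ite ℝ P (Classical.propDecidable P) 1 0

theorem ind_of {P : Prop} (h : P) : ind P = 1 := by
  unfold ind
  exact if_pos h

theorem ind_not {P : Prop} (h : ¬ P) : ind P = 0 := by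
  unfold ind
  exact if_neg h

theorem ite_ind (P : Prop) [Decidable P] : (if P then (1 : ℝ) else 0) = ind P := by
  by_cases h : P
  · rw [if_pos h, ind_of h]
  · rw [if_neg h, ind_not h]

theorem ind_nonneg (P : Prop) : 0 ≤ ind P := by
  by_cases h : P
  · rw [ind_of h]; exact zero_le_one
  · rw [ind_not h]

theorem ind_le_one (P : Prop) : ind P ≤ 1 := by
  by_cases h : P
  · rw [ind_of h]
  · rw [ind_not h]; exact zero_le_one

theorem card_filter_ind {α : Type*} (s : Finset α) (P : α → Prop) [DecidablePred P] :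
    ((s.filter P).card : ℝ) = ∑ x ∈ s, ind (P x) := by
  rw [← Finset.sum_boole]
  exact Finset.sum_congr rfl fun x _ => ite_ind _

theorem sum_seq {κ : Type} [Fintype κ] (K : ℕ) (Q : κ → Prop) :
    ∑ s : Fin K → κ, ind (∀ j, Q (s j)) = (∑ k, ind (Q k)) ^ K := by
  classical
  rw [← card_filter_ind (univ : Finset (Fin K → κ)) (fun s => ∀ j, Q (s j)),
    ← card_filter_ind (univ : Finset κ) Q]
  have e : (univ : Finset (Fin K → κ)).filter (fun s => ∀ j, Q (s j)) =
      Fintype.piFinset (fun _ : Fin K => (univ : Finset κ).filter Q) := by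
    ext s
    simp [Fintype.mem_piFinset]
  rw [e, Fintype.card_piFinset]
  simp

/-- majority vote, abstract form -/
theorem amp (h3 : S_AMP) {R : Type} [Fintype R] (h : ℕ) (B : Finset R)
    (hB : 3 * B.card ≤ Fintype.card R) (P : (Fin (2 * h) → R) → Prop)
    (hP : ∀ ρ : Fin (2 * h) → R, (∑ j, ind (ρ j ∈ B)) < h → P ρ) :
    (1 - (8 / 9) ^ h) * (Fintype.card R : ℝ) ^ (2 * h) ≤ ∑ ρ : Fin (2 * h) → R, ind (P ρ) := by
  classical
  have h1 := h3 R h B hB
  rw [card_filter_ind] at h1
  have h2 : ∀ ρ : Fin (2 * h) → R, 1 - ind (h ≤ ((univ : Finset (Fin (2 * h))).filter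
      (fun j => ρ j ∈ B)).card) ≤ ind (P ρ) := by
    intro ρ
    by_cases hc : h ≤ ((univ : Finset (Fin (2 * h))).filter (fun j => ρ j ∈ B)).card
    · rw [ind_of hc, sub_self]
      exact ind_nonneg _
    · have h4 : P ρ := by
        apply hP
        rw [← card_filter_ind]
        exact_mod_cast not_le.mp hc
      rw [ind_not hc, ind_of h4, sub_zero]
  have h5 := Finset.sum_le_sum fun ρ (_ : ρ ∈ (univ : Finset (Fin (2 * h) → R))) => h2 ρ
  rw [Finset.sum_sub_distrib] at h5
  have h6 : ∑ _ρ : Fin (2 * h) → R, (1 : ℝ) = (Fintype.card R : ℝ) ^ (2 * h) := by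
    rw [Finset.sum_const, Finset.card_univ, Fintype.card_fun, Fintype.card_fin]
    simp
  rw [h6] at h5
  linarith

theorem lemA (h3 : S_AMP) {I J R : Type} [Fintype R] [Nonempty R] (W : J → Finset I) (t : ℝ)
    (φ : R → Bool) (a : I → Bool) (h : ℕ) (hg : Good W t φ a) :
    (1 - (8 / 9) ^ h) * (Fintype.card R : ℝ) ^ (2 * h) ≤ ∑ ρ : Fin (2 * h) → R,
      ind (Ok W t a (decide (h < ((univ : Finset (Fin (2 * h))).filter
        (fun j => φ (ρ j) = true)).card))) := by
  classical
  obtain ⟨hg1, hg2⟩ := hg
  have hR : 0 < Fintype.card R := Fintype.card_pos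
  by_cases hH : HitF W a
  · have hF : ¬ FarF W t a := by
      intro hF
      have e1 := hg1 hH
      have e2 := hg2 hF
      omega
    have hc := hg1 hH
    have e3 := Finset.card_filter_add_card_filter_not (s := (univ : Finset R))
      (fun r => φ r = true)
    rw [Finset.card_univ] at e3
    refine amp h3 h ((univ : Finset R).filter (fun r => ¬ φ r = true)) (by omega) _
      fun ρ hρ => ⟨fun _ => ?_, fun h => absurd h hF⟩
    rw [decide_eq_true_eq]
    rw [← card_filter_ind] at hρ
    have hρ' : ((univ : Finset (Fin (2 * h))).filter (fun j => ρ j ∈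
        (univ : Finset R).filter (fun r => ¬ φ r = true))).card < h := by exact_mod_cast hρ
    have e4 : ((univ : Finset (Fin (2 * h))).filter (fun j => ρ j ∈
        (univ : Finset R).filter (fun r => ¬ φ r = true))) =
        (univ : Finset (Fin (2 * h))).filter (fun j => ¬ φ (ρ j) = true) := by
      ext j
      simp
    rw [e4] at hρ'
    have e5 := Finset.card_filter_add_card_filter_not (s := (univ : Finset (Fin (2 * h))))
      (fun j => φ (ρ j) = true)
    rw [Finset.card_univ, Fintype.card_fin] at e5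
    omega
  · by_cases hF : FarF W t a
    · have hc := hg2 hF
      refine amp h3 h ((univ : Finset R).filter (fun r => φ r = true)) (by omega) _
        fun ρ hρ => ⟨fun h => absurd h hH, fun _ => ?_⟩
      rw [decide_eq_false_iff_not]
      rw [← card_filter_ind] at hρ
      have hρ' : ((univ : Finset (Fin (2 * h))).filter (fun j => ρ j ∈
          (univ : Finset R).filter (fun r => φ r = true))).card < h := by exact_mod_cast hρ
      have e4 : ((univ : Finset (Fin (2 * h))).filter (fun j => ρ j ∈
          (univ : Finset R).filter (fun r => φ r = true))) =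
          (univ : Finset (Fin (2 * h))).filter (fun j => φ (ρ j) = true) := by
        ext j
        simp
      rw [e4] at hρ'
      omega
    · refine amp h3 h ∅ (by simp) _ fun ρ _ => ⟨fun h => absurd h hH, fun h => absurd h hF⟩

/-- power means -/
theorem lemB {κ X : Type} [Fintype κ] [Fintype X] [Nonempty X] (K : ℕ) (P : κ → X → Prop) (b : ℝ)
    (hb : 0 ≤ b) (h : ∀ k, b * Fintype.card X ≤ ∑ x, ind (P k x)) :
    (Fintype.card X : ℝ) * (b * Fintype.card κ) ^ K ≤ ∑ x, (∑ k, ind (P k x)) ^ K := by
  have hX : (0 : ℝ) < Fintype.card X := by exact_mod_cast Fintype.card_pos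
  have h1 := Real.pow_arith_mean_le_arith_mean_pow (univ : Finset X)
    (fun _ => (Fintype.card X : ℝ)⁻¹) (fun x => ∑ k, ind (P k x))
    (fun _ _ => by positivity) (by
      rw [Finset.sum_const, Finset.card_univ, nsmul_eq_mul, mul_inv_cancel₀ hX.ne'])
    (fun x _ => Finset.sum_nonneg fun k _ => ind_nonneg _) K
  rw [← Finset.mul_sum, ← Finset.mul_sum] at h1
  have h2 : b * Fintype.card κ ≤ (Fintype.card X : ℝ)⁻¹ * ∑ x, ∑ k, ind (P k x) := by
    rw [Finset.sum_comm]
    have h3 : ∑ _k : κ, b * (Fintype.card X : ℝ) ≤ ∑ k, ∑ x, ind (P k x) :=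
      Finset.sum_le_sum fun k _ => h k
    rw [Finset.sum_const, Finset.card_univ, nsmul_eq_mul] at h3
    rw [inv_mul_eq_div, le_div_iff₀ hX]
    linarith
  have h4 : (b * Fintype.card κ) ^ K ≤ ((Fintype.card X : ℝ)⁻¹ * ∑ x, ∑ k, ind (P k x)) ^ K :=
    pow_le_pow_left₀ (by positivity) h2 K
  have h5 := h4.trans h1
  rw [inv_mul_eq_div, le_div_iff₀ hX] at h5
  linarith

theorem ok_congr {I J : Type} [DecidableEq I] [Fintype J] (W : J → Finset I) (t : ℝ)
    (a a' : I → Bool) (c : Bool) (h : ∀ i ∈ (univ : Finset J).biUnion W, a i = a' i) :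
    Ok W t a c → Ok W t a' c := by
  have h' : ∀ j, ∀ i ∈ W j, a i = a' i := fun j i hi =>
    h i (Finset.mem_biUnion.mpr ⟨j, Finset.mem_univ _, hi⟩)
  rintro ⟨h1, h2⟩
  refine ⟨fun ⟨j, hj⟩ => h1 ⟨j, fun i hi => (h' j i hi).trans (hj i hi)⟩, fun hF => h2 fun j => ?_⟩
  have e : (W j).filter (fun i => a i = true) = (W j).filter (fun i => a' i = true) :=
    Finset.filter_congr fun i hi => by rw [h' j i hi]
  rw [e]
  exact hF j

theorem core (h1 : S_BLOCK) (h2 : S_SEQ) (h3 : S_AMP) (h4 : S_MAJ) : S_CORE := by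
  intro I κ J R _ _ _ _ _ _ _ _ m T K t W f hm hdisj hfar hf hJ hT hK
  set h : ℕ := 6 * (m + 4) with hh
  set e : ℝ := (1 / 2) ^ (m + 4) with he
  have he0 : 0 < e := by positivity
  have he1 : 2 * e ≤ 1 := by
    have : (1 / 2 : ℝ) ^ (m + 4) ≤ (1 / 2) ^ 1 :=
      pow_le_pow_of_le_one (by norm_num) (by norm_num) (by omega)
    rw [he]
    linarith
  have hpe : (1 : ℝ) - (1 / 2) ^ (m + 2) + (1 / 2) ^ (m + 3) = 1 - 2 * e := by
    rw [he, pow_add, pow_add, pow_add]
    ring
  set maj : (Fin (2 * h) → R) → κ → (I → Bool) → Bool := fun ρ k a =>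
    decide (h < ((univ : Finset (Fin (2 * h))).filter (fun j => f (ρ j) k a = true)).card)
    with hmaj
  -- the decision trees on random sequences of blocks
  have hC : ∀ ρ : Fin (2 * h) → R, ∑ s : Fin K → κ, Ex unif (fun a : I → Bool =>
      ind (∀ j, Ok (W (s j)) t a (maj ρ (s j) a))) ≤
        ((1 - 2 * e) * Fintype.card κ) ^ K := by
    intro ρ
    classical
    have key := h2 I κ (2 * h * T) (m * Fintype.card J) K (1 - (1 / 2) ^ (m + 2))
      ((1 / 2) ^ (m + 3)) (fun k => (univ : Finset J).biUnion (W k))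
      (fun k a c => decide (Ok (W k) t a c)) (maj ρ) (by
        have : (1 / 2 : ℝ) ^ (m + 2) ≤ 1 := pow_le_one₀ (by norm_num) (by norm_num)
        linarith) (by positivity) (by
        intro k
        refine Finset.card_biUnion_le.trans ?_
        rw [Finset.sum_congr rfl fun j _ => hm k j, Finset.sum_const, Finset.card_univ,
          smul_eq_mul, mul_comm]) (by
        intro k k' hkk
        rw [Finset.disjoint_biUnion_left]
        intro j _
        rw [Finset.disjoint_biUnion_right]
        intro j' _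
        exact hdisj k j k' j' (fun hh => hkk (congrArg Prod.fst hh))) (by
        intro k a a' c haa
        refine decide_eq_decide.mpr ⟨ok_congr (W k) t a a' c haa,
          ok_congr (W k) t a' a c fun i hi => (haa i hi).symm⟩) (by
        intro k g hg
        have h5 := h1 I J m (2 * h * T) t (W k) g (hm k)
          (fun j j' hjj => hdisj k j k j' (fun hh => hjj (congrArg Prod.snd hh))) hJ (by
            have : 4 * (2 * h * T) = 48 * (m + 4) * T := by rw [hh]; ring
            rw [this]
            exact hT) (hfar k) hg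
        simp only [ite_ind, decide_eq_true_eq] at h5 ⊢
        exact h5) (by
        intro k
        exact h4 I (2 * h) T (fun j => f (ρ j) k) (fun v => decide (h <
          ((univ : Finset (Fin (2 * h))).filter (fun j => v j = true)).card))
          (fun j => hf (ρ j) k)) (by
        have h6 : (K : ℝ) * (12 * (m + 4) * T + m * Fintype.card J) * 2 ^ (m + 3) ≤
            Fintype.card κ := by exact_mod_cast hK
        have h7 : (((2 * h * T : ℕ) : ℝ) + ((m * Fintype.card J : ℕ) : ℝ)) =
            12 * (m + 4) * T + m * Fintype.card J := by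
          rw [hh]
          push_cast
          ring
        rw [h7, one_div, inv_pow, inv_mul_eq_div, le_div_iff₀ (by positivity)]
        exact h6)
    rw [hpe] at key
    simp only [ite_ind, decide_eq_true_eq] at key
    exact key
  -- majority votes are right on most of the blocks
  have hB : ∀ a : I → Bool, ((Fintype.card (Fin (2 * h) → R) : ℝ) *
      ((1 - e) * Fintype.card κ) ^ K) * ind (∀ k, Good (W k) t (fun r => f r k a) a) ≤
      ∑ ρ : Fin (2 * h) → R, ∑ s : Fin K → κ,
        ind (∀ j, Ok (W (s j)) t a (maj ρ (s j) a)) := by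
    intro a
    by_cases hG : ∀ k, Good (W k) t (fun r => f r k a) a
    · rw [ind_of hG, mul_one]
      have h5 := lemB K (fun k (ρ : Fin (2 * h) → R) => Ok (W k) t a (maj ρ k a)) (1 - e)
        (by linarith) (fun k => by
          have h6 := lemA h3 (W k) t (fun r => f r k a) a h (hG k)
          have h7 : (8 / 9 : ℝ) ^ h ≤ e := by
            rw [hh, he, pow_mul]
            exact pow_le_pow_left₀ (by norm_num) (by norm_num) _
          have h8 : ((Fintype.card (Fin (2 * h) → R) : ℕ) : ℝ) =
              (Fintype.card R : ℝ) ^ (2 * h) := by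
            rw [Fintype.card_fun, Fintype.card_fin]
            push_cast
            rfl
          rw [h8]
          refine le_trans ?_ h6
          exact mul_le_mul_of_nonneg_right (by linarith) (by positivity))
      refine h5.trans (le_of_eq (Finset.sum_congr rfl fun ρ _ => ?_))
      exact (sum_seq K (fun k => Ok (W k) t a (maj ρ k a))).symm
    · rw [ind_not hG, mul_zero]
      exact Finset.sum_nonneg fun ρ _ => Finset.sum_nonneg fun s _ => ind_nonneg _
  -- conclusion
  have hD := Ex_mono (I := I) (w := unif) unif_nonneg hB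
  rw [Ex_smul, Ex_sum] at hD
  have hE : ∑ ρ : Fin (2 * h) → R, Ex unif (fun a : I → Bool => ∑ s : Fin K → κ,
      ind (∀ j, Ok (W (s j)) t a (maj ρ (s j) a))) ≤
      ∑ _ρ : Fin (2 * h) → R, ((1 - 2 * e) * Fintype.card κ) ^ K := by
    refine Finset.sum_le_sum fun ρ _ => ?_
    rw [Ex_sum]
    exact hC ρ
  rw [Finset.sum_const, Finset.card_univ, nsmul_eq_mul] at hE
  have hF := hD.trans hE
  have hM : (0 : ℝ) < Fintype.card (Fin (2 * h) → R) := by exact_mod_cast Fintype.card_pos
  rw [mul_assoc] at hF
  have hG := le_of_mul_le_mul_left hF hM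
  have hκ : (0 : ℝ) < Fintype.card κ := by exact_mod_cast Fintype.card_pos
  simp only [ite_ind]
  set P := Ex unif (fun a : I → Bool => ind (∀ k, Good (W k) t (fun r => f r k a) a)) with hP
  have hmul : ((1 - e) * Fintype.card κ) ^ K * P ≤
      ((1 - e) * Fintype.card κ) ^ K * (1 - e) ^ K := by
    refine hG.trans ?_
    rw [← mul_pow]
    refine pow_le_pow_left₀ (mul_nonneg (by linarith) hκ.le) ?_ K
    have h5 : (1 - 2 * e) ≤ (1 - e) * (1 - e) := by nlinarith
    calc (1 - 2 * e) * (Fintype.card κ : ℝ) ≤ ((1 - e) * (1 - e)) * (Fintype.card κ : ℝ) :=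
          mul_le_mul_of_nonneg_right h5 hκ.le
      _ = (1 - e) * Fintype.card κ * (1 - e) := by ring
  exact le_of_mul_le_mul_left hmul (pow_pos (mul_pos (by linarith) hκ) K)

end Pool.Agent.W67.SE
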